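import Pool.Agent.H25V.M

set_option autoImplicit false

/-!
# `H_10` is maximal in characteristic `13`

The curve `y ^ 2 = φ_10 (x)` has `29914 = 13 ^ 4 + 1 + 2 * 4 * 13 ^ 2` points over the field with
`13 ^ 4` elements: it is maximal in the characteristic `13 ≡ 1 (mod 4)`, and `10` is not a power of a
prime.  So Question 1 (stated for all `d ≥ 3`) has a negative answer.  The points are counted in
`F_13 [t] / (t ^ 4 - 2)`, with the norm to `F_13` for the quadratic character.
-/

open Polynomial

namespace Pool.Agent.Results.MP_b95a42_nt.EvenDegreeCounterexample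

/-- The polynomial `φ_d` over a field `k`: `φ_0 = 2`, `φ_1 = x`, `φ_{d+2} = x φ_{d+1} - φ_d`. -/
noncomputable def φ (k : Type) [Field k] : ℕ → k[X]
  | 0 => 2
  | 1 => X
  | (d + 2) => X * φ k (d + 1) - φ k d

/-- The number of `k`-rational points of the smooth complete curve `H_d` with affine model
`y ^ 2 = φ_d (x)`: the affine points, and one point at infinity if `d` is odd, two rational ones
if `d` is even (`φ_d` is monic). -/
noncomputable def points (k : Type) [Field k] (d : ℕ) : ℕ :=
  Nat.card {P : k × k // P.2 ^ 2 = (φ k d).eval P.1} + (if Even d then 2 else 1)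

/-- `H_d`, of genus `(d - 1) / 2` (rounded down), is maximal over the field with `p ^ (2 m)`
elements for some `m ≥ 1`. -/
def Maximal (d p : ℕ) [Fact p.Prime] : Prop :=
  ∃ m : ℕ, 1 ≤ m ∧
    points (GaloisField p (2 * m)) d = p ^ (2 * m) + 1 + 2 * ((d - 1) / 2) * p ^ m

open Finset in
lemma card_affine {k : Type} [Field k] [Fintype k] [DecidableEq k] (hk : ringChar k ≠ 2)
    (f : k[X]) : (Nat.card {P : k × k // P.2 ^ 2 = f.eval P.1} : ℤ) =
      Fintype.card k + ∑ x : k, quadraticChar k (f.eval x) := by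
  have h1 : Nat.card {P : k × k // P.2 ^ 2 = f.eval P.1} =
      ∑ x : k, (univ.filter fun y : k => y ^ 2 = f.eval x).card := by
    rw [Nat.card_eq_fintype_card, Fintype.card_subtype, ← univ_product_univ]
    rw [card_eq_sum_card_fiberwise (f := fun P : k × k => P.1) (t := univ) (fun _ _ => mem_univ _)]
    refine sum_congr rfl fun x _ => ?_
    refine card_bij (fun P _ => P.2) ?_ ?_ ?_
    · rintro ⟨a, b⟩ h
      simp only [mem_filter, mem_univ, true_and, univ_product_univ] at h ⊢
      rw [h.1, h.2]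
    · rintro ⟨a, b⟩ h ⟨a', b'⟩ h' hb
      simp only [mem_filter, mem_univ, true_and, univ_product_univ] at h h' hb
      rw [h.2, h'.2, hb]
    · intro y hy
      simp only [mem_filter, mem_univ, true_and] at hy
      exact ⟨(x, y), by simpa using hy, rfl⟩
  have h2 : ∀ x : k, ((univ.filter fun y : k => y ^ 2 = f.eval x).card : ℤ) =
      quadraticChar k (f.eval x) + 1 := by
    intro x
    have h3 := quadraticChar_card_sqrts hk (f.eval x)
    rw [← h3]
    congr 2
    ext y
    simp
  rw [h1, Nat.cast_sum, sum_congr rfl fun x _ => h2 x, sum_add_distrib, sum_const, card_univ,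
    nsmul_eq_mul, mul_one, add_comm]

lemma phi_ten {k : Type} [Field k] (x : k) : (φ k 10).eval x = Pool.Agent.H25V.f10 x := by
  unfold Pool.Agent.H25V.f10
  simp only [φ, eval_sub, eval_mul, eval_X, eval_ofNat]
  ring

lemma points_ten (k : Type) [Field k] [Finite k] [CharP k 13] (h : Nat.card k = 28561) :
    points k 10 = 29914 := by
  classical
  have : Fintype k := Fintype.ofFinite k
  have hc : Fintype.card k = 28561 := by rw [← Nat.card_eq_fintype_card, h]
  have hch : ringChar k ≠ 2 := by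
    rw [ringChar.eq k 13]; norm_num
  have h1 := card_affine hch (φ k 10)
  simp only [phi_ten] at h1
  rw [hc, Pool.Agent.H25V.sum_chi hc] at h1
  unfold points
  simp only [phi_ten]
  have h2 : Nat.card {P : k × k // P.2 ^ 2 = Pool.Agent.H25V.f10 P.1} = 29912 := by
    have h3 : ((Nat.card {P : k × k // P.2 ^ 2 = Pool.Agent.H25V.f10 P.1} : ℕ) : ℤ) = 29912 := by
      rw [h1]; norm_num
    exact_mod_cast h3
  rw [h2, if_pos (by decide)]

instance : Fact (Nat.Prime 13) := ⟨by norm_num⟩

theorem maximal_ten : Maximal 10 13 := by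
  refine ⟨2, by norm_num, ?_⟩
  have h := points_ten (GaloisField 13 (2 * 2)) (by
    rw [GaloisField.card 13 (2 * 2) (by norm_num)]; norm_num)
  rw [h]
  norm_num

/-- **Main result.** `H_10` is maximal over the field with `13 ^ 4` elements.  So it is not true that
for all `d ≥ 3` and all primes `p ≡ 1 (mod 4)` not dividing `d`, maximality of `H_d` in
characteristic `p` implies `d = ℓ ^ n` with a prime `ℓ ≡ 1 (mod 4)` and `n ≥ 1`. -/
theorem result : points (GaloisField 13 4) 10 = 13 ^ 4 + 1 + 2 * 4 * 13 ^ 2 ∧ Maximal 10 13 ∧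
    ¬ ∀ (p d : ℕ) [Fact p.Prime], p % 4 = 1 → 3 ≤ d → ¬ p ∣ d → Maximal d p →
      ∃ ℓ n : ℕ, ℓ.Prime ∧ ℓ % 4 = 1 ∧ 1 ≤ n ∧ d = ℓ ^ n := by
  refine ⟨?_, maximal_ten, ?_⟩
  · have h := points_ten (GaloisField 13 4) (by
      rw [GaloisField.card 13 4 (by norm_num)]; norm_num)
    rw [h]; norm_num
  · intro h
    obtain ⟨ℓ, n, hℓ, h4, hn, h10⟩ := h 13 10 (by norm_num) (by norm_num) (by norm_num) maximal_ten
    have h2 : 2 ∣ ℓ ^ n := h10 ▸ (by norm_num : 2 ∣ 10)
    have h3 : 2 ∣ ℓ := Nat.prime_two.dvd_of_dvd_pow h2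
    have h5 : 2 = ℓ := (Nat.prime_dvd_prime_iff_eq Nat.prime_two hℓ).1 h3
    rw [← h5] at h4
    norm_num at h4

end Pool.Agent.Results.MP_b95a42_nt.EvenDegreeCounterexample
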