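import Pool.Agent.H25V.Q

set_option autoImplicit false

/-!
# Maximality of `H_(2 e)` and of `H_e`

Let `p` be an odd prime, `m ≥ 1` and `e` an odd divisor of `p ^ m + 1`.  Over the field with
`p ^ (2 m)` elements the curve `H_(2 e)` has exactly `(e - 1) p ^ m` points more than `H_e`; so it is
maximal there if and only if `H_e` is.
-/

open Polynomial

namespace Pool.Agent.Results.MP_b95a42_nt.EvenDegreeTwins

/-- The polynomial `φ_d` over a field `k`: `φ_0 = 2`, `φ_1 = x`, `φ_{d+2} = x φ_{d+1} - φ_d`. -/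
noncomputable def φ (k : Type) [Field k] : ℕ → k[X]
  | 0 => 2
  | 1 => X
  | (d + 2) => X * φ k (d + 1) - φ k d

/-- The number of `k`-rational points of the smooth complete curve `H_d` with affine model
`y ^ 2 = φ_d (x)`: the affine points, and one point at infinity if `d` is odd, two rational ones
if `d` is even (`φ_d` is monic). -/
noncomputable def points (k : Type) [Field k] (d : ℕ) : ℕ :=
  Nat.card {P : k × k // P.2 ^ 2 = (φ k d).eval P.1} + (if Even d then 2 else 1)

/-- `H_d`, of genus `(d - 1) / 2` (rounded down), is maximal over the field with `p ^ (2 m)`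
elements. -/
def MaximalOver (d p m : ℕ) [Fact p.Prime] : Prop :=
  points (GaloisField p (2 * m)) d = p ^ (2 * m) + 1 + 2 * ((d - 1) / 2) * p ^ m

lemma phi_eq (k : Type) [Field k] : ∀ d : ℕ, φ k d = Pool.Agent.R414.CB.phi k d
  | 0 => by
    unfold φ Pool.Agent.R414.CB.phi
    rw [dickson_zero]
    norm_num
  | 1 => by
    unfold φ Pool.Agent.R414.CB.phi
    rw [dickson_one]
  | (d + 2) => by
    unfold φ
    rw [phi_eq k (d + 1), phi_eq k d]
    unfold Pool.Agent.R414.CB.phi
    rw [dickson_add_two, map_one, one_mul]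

open Finset in
lemma card_affine {k : Type} [Field k] [Fintype k] [DecidableEq k] (hk : ringChar k ≠ 2)
    (f : k[X]) : (Nat.card {P : k × k // P.2 ^ 2 = f.eval P.1} : ℤ) =
      Fintype.card k + ∑ x : k, quadraticChar k (f.eval x) := by
  have h1 : Nat.card {P : k × k // P.2 ^ 2 = f.eval P.1} =
      ∑ x : k, (univ.filter fun y : k => y ^ 2 = f.eval x).card := by
    rw [Nat.card_eq_fintype_card, Fintype.card_subtype, ← univ_product_univ]
    rw [card_eq_sum_card_fiberwise (f := fun P : k × k => P.1) (t := univ) (fun _ _ => mem_univ _)]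
    refine sum_congr rfl fun x _ => ?_
    refine card_bij (fun P _ => P.2) ?_ ?_ ?_
    · rintro ⟨a, b⟩ h
      simp only [mem_filter, mem_univ, true_and, univ_product_univ] at h ⊢
      rw [h.1, h.2]
    · rintro ⟨a, b⟩ h ⟨a', b'⟩ h' hb
      simp only [mem_filter, mem_univ, true_and, univ_product_univ] at h h' hb
      rw [h.2, h'.2, hb]
    · intro y hy
      simp only [mem_filter, mem_univ, true_and] at hy
      exact ⟨(x, y), by simpa using hy, rfl⟩
  have h2 : ∀ x : k, ((univ.filter fun y : k => y ^ 2 = f.eval x).card : ℤ) =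
      quadraticChar k (f.eval x) + 1 := by
    intro x
    have h3 := quadraticChar_card_sqrts hk (f.eval x)
    rw [← h3]
    congr 2
    ext y
    simp
  rw [h1, Nat.cast_sum, sum_congr rfl fun x _ => h2 x, sum_add_distrib, sum_const, card_univ,
    nsmul_eq_mul, mul_one, add_comm]

theorem points_two_mul (p m e : ℕ) [Fact p.Prime] (hp : p ≠ 2) (hm : 1 ≤ m) (he : Odd e)
    (hd : e ∣ p ^ m + 1) :
    points (GaloisField p (2 * m)) (2 * e) = points (GaloisField p (2 * m)) e + (e - 1) * p ^ m := by
  classical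
  let F := GaloisField p (2 * m)
  have : Fintype F := Fintype.ofFinite F
  let E := FiniteField.Extension F p 2
  have : Fintype E := Fintype.ofFinite E
  have hpp := (Fact.out : p.Prime)
  have hqF : Fintype.card F = p ^ (2 * m) := by
    rw [← Nat.card_eq_fintype_card]
    exact GaloisField.card p (2 * m) (by omega)
  have hcE : Fintype.card E = Fintype.card F ^ 2 := by
    rw [← Nat.card_eq_fintype_card, ← Nat.card_eq_fintype_card]
    exact FiniteField.natCard_extension F p 2
  have hF : ringChar F ≠ 2 := by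
    rw [ringChar.eq F p]
    exact hp
  have hr : Fintype.card F = (p ^ m) ^ 2 := by rw [hqF, ← pow_mul, mul_comm]
  have hadd : ∀ x y : F, (x + y) ^ (p ^ m) = x ^ (p ^ m) + y ^ (p ^ m) := fun x y =>
    add_pow_char_pow x y p m
  have hpo : p % 2 = 1 := (hpp.eq_two_or_odd).resolve_left hp
  have hpm : (p ^ m) % 2 = 1 := by
    rw [Nat.pow_mod, hpo, one_pow, Nat.one_mod]
  have h2 : 2 * e ∣ p ^ m + 1 := by
    refine Nat.Coprime.mul_dvd_of_dvd_of_dvd ?_ (by omega) hd
    exact Nat.coprime_two_left.2 he
  have key := Pool.Agent.H25V.two_e (F := F) (E := E) hr hF hadd he h2 hcE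
  have h3 := card_affine hF (φ F (2 * e))
  have h4 := card_affine hF (φ F e)
  rw [phi_eq] at h3 h4
  have he1 : 1 ≤ e := by
    rcases Nat.eq_zero_or_pos e with h | h
    · rw [h] at he
      exact absurd he (by decide)
    · exact h
  unfold points
  rw [if_pos (even_two_mul e), if_neg (Nat.not_even_iff_odd.2 he), phi_eq, phi_eq]
  have h5 : (((Nat.card {P : F × F // P.2 ^ 2 = (Pool.Agent.R414.CB.phi F (2 * e)).eval P.1} + 2 : ℕ)) : ℤ) =
      ((Nat.card {P : F × F // P.2 ^ 2 = (Pool.Agent.R414.CB.phi F e).eval P.1} + 1 + (e - 1) * p ^ m : ℕ) : ℤ) := by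
    push_cast [he1]
    rw [h3, h4, key]
    push_cast
    ring
  exact_mod_cast h5

/-- **Main result.** For an odd prime `p`, `m ≥ 1` and an odd divisor `e` of `p ^ m + 1`, over the
field with `p ^ (2 m)` elements `H_(2 e)` has exactly `(e - 1) p ^ m` points more than `H_e`, and
`H_(2 e)` is maximal over that field if and only if `H_e` is. -/
theorem result (p m e : ℕ) [Fact p.Prime] (hp : p ≠ 2) (hm : 1 ≤ m) (he : Odd e)
    (hd : e ∣ p ^ m + 1) :
    points (GaloisField p (2 * m)) (2 * e) =
        points (GaloisField p (2 * m)) e + (e - 1) * p ^ m ∧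
      (MaximalOver (2 * e) p m ↔ MaximalOver e p m) := by
  have h := points_two_mul p m e hp hm he hd
  refine ⟨h, ?_⟩
  unfold MaximalOver
  rw [h]
  obtain ⟨c, rfl⟩ := he
  have h1 : (2 * (2 * c + 1) - 1) / 2 = 2 * c := by omega
  have h2 : (2 * c + 1 - 1) / 2 = c := by omega
  rw [h1, h2, Nat.add_sub_cancel]
  have h3 : 2 * (2 * c) * p ^ m = 2 * c * p ^ m + 2 * c * p ^ m := by ring
  rw [h3]
  constructor
  · intro h4
    omega
  · intro h4
    omega

end Pool.Agent.Results.MP_b95a42_nt.EvenDegreeTwins
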